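import Pool.Agent.T9h72.KU.Spec

/-!
# Project KU (MP_d11fee_pr, Q2), piece LC
-/

set_option autoImplicit false

namespace Pool.Agent.T9h43.KU

open Set Pool.Agent.R190.KR Pool.Agent.T9h72.KU

/-- `(1 - e^(-t)) / t` is nonincreasing -/
theorem f_anti {s t : ℝ} (hs : 0 < s) (hst : s ≤ t) :
    (1 - Real.exp (-t)) / t ≤ (1 - Real.exp (-s)) / s := by
  have hanti : AntitoneOn (fun t : ℝ => (1 - Real.exp (-t)) / t) (Ioi 0) := by
    have hd : ∀ t : ℝ, 0 < t → HasDerivAt (fun t : ℝ => (1 - Real.exp (-t)) / t)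
        ((Real.exp (-t) * (t + 1) - 1) / t ^ 2) t := by
      intro t ht
      have := (((Real.hasDerivAt_exp (-t)).comp t (hasDerivAt_neg t)).const_sub 1).div
        (hasDerivAt_id t) ht.ne'
      refine this.congr_deriv ?_
      simp only [id_eq, Function.comp_apply]
      field_simp
      ring
    apply antitoneOn_of_deriv_nonpos (convex_Ioi 0)
    · exact fun t ht => (hd t ht).continuousAt.continuousWithinAt
    · intro t ht
      rw [interior_Ioi] at ht
      exact (hd t ht).differentiableAt.differentiableWithinAt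
    · intro t ht
      rw [interior_Ioi] at ht
      rw [(hd t ht).deriv]
      have ht' : 0 < t := ht
      apply div_nonpos_of_nonpos_of_nonneg _ (by positivity)
      have h1 := Real.add_one_le_exp t
      have h2 : Real.exp (-t) * Real.exp t = 1 := by rw [← Real.exp_add]; simp
      have h3 := Real.exp_pos (-t)
      nlinarith [mul_le_mul_of_nonneg_left h1 h3.le]
  exact hanti (mem_Ioi.2 hs) (mem_Ioi.2 (hs.trans_le hst)) hst

/-- `v / a ≤ u / b` -/
theorem va_le {x : ℝ} (hx : x ∈ Ioo (1 / 2 : ℝ) 1) : x / A x ≤ (1 - x) / A (1 - x) := by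
  have hb := A_pos (x := 1 - x) (by linarith [hx.2]) (by linarith [hx.1])
  have h := f_anti hb (A_le_of hx.1.le hx.2)
  rw [exp_neg_A hx.2, exp_neg_A (x := 1 - x) (by linarith [hx.1])] at h
  simpa using h

theorem lc : S_G0 → S_LC := by
  intro hG n m hm x hx hw
  have h0 : 0 < x := by linarith [hx.1]
  have hu : 0 < 1 - x := by linarith [hx.2]
  have ha := A_pos h0 hx.2
  have hb := A_pos (x := 1 - x) hu (by linarith)
  have hd := va_le hx
  have hg := hG x hx
  have hm' : (1 : ℝ) ≤ m := by exact_mod_cast hm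
  unfold w at hw
  unfold psi psi'
  rw [sub_sub_cancel]
  set a := A x with ha_def
  set b := A (1 - x) with hb_def
  have hn : (0 : ℝ) < n := by
    have hwpos : 0 < x / a + (1 - x) / b := by positivity
    by_contra hcon
    have hn0 : (n : ℝ) ≤ 0 := not_lt.1 hcon
    nlinarith [mul_nonneg (neg_nonneg.2 hn0) hwpos.le]
  -- `g0 > 0`
  have hg0 : 0 < (1 - x) / b * x - x / a * (1 - x) - ((1 - x) / b) ^ 2 + (x / a) ^ 2 := by
    have e : (1 - x) / b * x - x / a * (1 - x) - ((1 - x) / b) ^ 2 + (x / a) ^ 2 =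
        ((1 - x) * x * a * b * (a - b) - (((1 - x) * a) ^ 2 - (x * b) ^ 2)) / (a ^ 2 * b ^ 2) := by
      field_simp
      ring
    rw [e]
    apply div_pos (by linarith) (by positivity)
  have key : (1 - x) ^ 2 * ((n / b - m) ^ 2 + (n / b - m) - n / b ^ 2) -
      x ^ 2 * ((n / a - m) ^ 2 + (n / a - m) - n / a ^ 2) =
      n * ((1 - x) / b * x - x / a * (1 - x) - ((1 - x) / b) ^ 2 + (x / a) ^ 2) +
      (n * (x / a + (1 - x) / b) - m) *
        (n * ((1 - x) / b - x / a) + (m - 1) * (x - (1 - x))) := by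
    field_simp
    ring
  have hpos : 0 < (1 - x) ^ 2 * ((n / b - m) ^ 2 + (n / b - m) - n / b ^ 2) -
      x ^ 2 * ((n / a - m) ^ 2 + (n / a - m) - n / a ^ 2) := by
    rw [key]
    have h1 := mul_pos hn hg0
    have h2 : 0 ≤ (n * (x / a + (1 - x) / b) - m) *
        (n * ((1 - x) / b - x / a) + (m - 1) * (x - (1 - x))) := by
      apply mul_nonneg (by linarith)
      have h3 : 0 ≤ (n : ℝ) * ((1 - x) / b - x / a) := mul_nonneg hn.le (by linarith)
      have h4 : 0 ≤ ((m : ℝ) - 1) * (x - (1 - x)) :=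
        mul_nonneg (by linarith) (by linarith [hx.1])
      linarith
    linarith
  have e1 : ((n / a - m) / (1 - x)) ^ 2 + (n / a - m - n / a ^ 2) / (1 - x) ^ 2 =
      ((n / a - m) ^ 2 + (n / a - m) - n / a ^ 2) / (1 - x) ^ 2 := by
    rw [div_pow]; ring
  have e2 : ((n / b - m) / x) ^ 2 + (n / b - m - n / b ^ 2) / x ^ 2 =
      ((n / b - m) ^ 2 + (n / b - m) - n / b ^ 2) / x ^ 2 := by
    rw [div_pow]; ring
  rw [e1, e2, div_lt_div_iff₀ (by positivity) (by positivity)]
  linarith

end Pool.Agent.T9h43.KU
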