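import Pool.Agent.T9h72.KU.Spec2
import Pool.Agent.T9h12.KU.Slope

/-!
# Project KU (MP_d11fee_pr, Q2), piece UNIQ: the knot is unique
-/

set_option autoImplicit false

namespace Pool.Agent.T9h43.KU

open MeasureTheory Set Pool.Agent.R190.KR Pool.Agent.T9h72.KU Pool.Agent.T9h12.KU

/-- the function which is `S` on `[1/2, β]` and the line on `[β, 1]` -/
noncomputable def gg (n m : ℕ) (β a x : ℝ) : ℝ :=
  if x ≤ β then S n m x else S n m β + a * (x - β)

theorem gg_eq (n m : ℕ) (β a x : ℝ) :
    gg n m β a x = S n m (min x β) + a * (max x β - β) := by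
  unfold gg
  split_ifs with h
  · rw [min_eq_left h, max_eq_right h]; ring
  · have h' : β ≤ x := (not_le.1 h).le
    rw [min_eq_right h', max_eq_left h']

theorem continuousOn_gg (n m : ℕ) (hm : 1 ≤ m) {β a : ℝ} (h0 : 1 / 2 ≤ β) :
    ContinuousOn (gg n m β a) (Icc (1 / 2) 1) := by
  have e : gg n m β a = fun x => S n m (min x β) + a * (max x β - β) :=
    funext (gg_eq n m β a)
  rw [e]
  apply ContinuousOn.add
  · apply (continuousOn_S n m hm).comp (t := Icc (0 : ℝ) 1)
    · exact (continuous_id.min continuous_const).continuousOn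
    · intro x hx
      exact ⟨le_min (by linarith [hx.1]) (by linarith), (min_le_left _ _).trans hx.2⟩
  · exact (continuous_const.mul ((continuous_id.max continuous_const).sub
      continuous_const)).continuousOn

/-- the two knots -/
theorem false_of_lt (hS2 : S_SHAPE2) (hCV : S_CONVG) (hR : S_REG) {n m : ℕ} (hn : 1 ≤ n)
    (hm : 1 ≤ m) {β a β' a' : ℝ} (h : KnotS n m β a) (h' : KnotS n m β' a') (hlt : β < β') :
    False := by
  have hβ := h.mem
  have hβ' := h'.mem
  have hSc : ContinuousOn (S n m) (Icc (1 / 2 : ℝ) 1) :=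
    (continuousOn_S n m hm).mono (Icc_subset_Icc (by norm_num) le_rfl)
  have hgc := continuousOn_gg n m hm (a := a') hβ'.1.le
  -- the line
  have hlc : Continuous (fun x : ℝ => S n m β + a * (x - β)) := by fun_prop
  have hlc' : Continuous (fun x : ℝ => S n m β' + a' * (x - β')) := by fun_prop
  -- `f = g' - ℓ`
  have hfc : ContinuousOn (fun x => gg n m β' a' x - (S n m β + a * (x - β))) (Icc β 1) :=
    (hgc.mono (Icc_subset_Icc hβ.1.le le_rfl)).sub hlc.continuousOn
  have hconv : ConvexOn ℝ (Icc β 1) (fun x => gg n m β' a' x - (S n m β + a * (x - β))) := by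
    have hg := hCV n m hn hm β' a' h'
    refine ⟨convex_Icc _ _, ?_⟩
    intro x hx y hy s t hs ht hst
    have h1 := hg.2 (x := x) ⟨by linarith [hx.1, hβ.1], hx.2⟩ (y := y)
      ⟨by linarith [hy.1, hβ.1], hy.2⟩
      hs ht hst
    have h2 : gg n m β' a' (s • x + t • y) ≤ s • gg n m β' a' x + t • gg n m β' a' y := h1
    simp only [smul_eq_mul] at h2 ⊢
    have e : S n m β + a * (s * x + t * y - β) =
        s * (S n m β + a * (x - β)) + t * (S n m β + a * (y - β)) := by
      have : t = 1 - s := by linarith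
      subst this
      ring
    rw [e]
    linarith
  have hf0 : gg n m β' a' β - (S n m β + a * (β - β)) = 0 := by
    unfold gg
    rw [if_pos hlt.le]
    ring
  -- integrability
  have ii : ∀ {p q : ℝ} {φ : ℝ → ℝ}, 1 / 2 ≤ p → p ≤ q → q ≤ 1 →
      ContinuousOn φ (Icc (1 / 2 : ℝ) 1) → IntervalIntegrable φ volume p q := by
    intro p q φ hp hpq hq hφ
    apply ContinuousOn.intervalIntegrable
    rw [uIcc_of_le hpq]
    exact hφ.mono (Icc_subset_Icc hp hq)
  -- the moments of `S - g'`
  have hw : ∀ ψ : ℝ → ℝ, Continuous ψ →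
      ∫ x in β..1, (S n m x - gg n m β' a' x) * ψ x =
        ∫ x in β'..1, (S n m x - (S n m β' + a' * (x - β'))) * ψ x := by
    intro ψ hψ
    have hc : ContinuousOn (fun x => (S n m x - gg n m β' a' x) * ψ x) (Icc (1 / 2 : ℝ) 1) :=
      (hSc.sub hgc).mul hψ.continuousOn
    rw [← intervalIntegral.integral_add_adjacent_intervals
      (ii (φ := fun x => (S n m x - gg n m β' a' x) * ψ x) hβ.1.le hlt.le hβ'.2.le hc)
      (ii (φ := fun x => (S n m x - gg n m β' a' x) * ψ x) hβ'.1.le hβ'.2.le le_rfl hc)]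
    have e1 : ∫ x in β..β', (S n m x - gg n m β' a' x) * ψ x = 0 := by
      have : ∫ x in β..β', (S n m x - gg n m β' a' x) * ψ x = ∫ x in β..β', (0 : ℝ) := by
        apply intervalIntegral.integral_congr
        intro x hx
        rw [uIcc_of_le hlt.le] at hx
        have : gg n m β' a' x = S n m x := by unfold gg; rw [if_pos hx.2]
        simp only [this, sub_self, zero_mul]
      rw [this]; simp
    have e2 : ∫ x in β'..1, (S n m x - gg n m β' a' x) * ψ x =
        ∫ x in β'..1, (S n m x - (S n m β' + a' * (x - β'))) * ψ x := by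
      apply intervalIntegral.integral_congr
      intro x hx
      rw [uIcc_of_le hβ'.2.le] at hx
      have : gg n m β' a' x = S n m β' + a' * (x - β') := by
        rw [gg_eq, min_eq_right hx.1, max_eq_left hx.1]
      simp only [this]
    rw [e1, e2, zero_add]
  have hm0 : ∫ x in β..1, (S n m x - gg n m β' a' x) = 0 := by
    have := hw (fun _ => 1) continuous_const
    simp only [mul_one] at this
    rw [this]; exact h'.mom0
  have hm1 : ∫ x in β..1, (S n m x - gg n m β' a' x) * (x - β) = 0 := by
    rw [hw (fun x => x - β) (by fun_prop)]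
    have hc : ContinuousOn (fun x => S n m x - (S n m β' + a' * (x - β')))
        (Icc (1 / 2 : ℝ) 1) := hSc.sub hlc'.continuousOn
    have hc' : ContinuousOn (fun x => (S n m x - (S n m β' + a' * (x - β'))) * (x - β'))
        (Icc (1 / 2 : ℝ) 1) := hc.mul (by fun_prop)
    have hc'' : ContinuousOn (fun x => (S n m x - (S n m β' + a' * (x - β'))) * (β' - β))
        (Icc (1 / 2 : ℝ) 1) := hc.mul continuousOn_const
    have e : ∀ x : ℝ, (S n m x - (S n m β' + a' * (x - β'))) * (x - β) =
        (S n m x - (S n m β' + a' * (x - β'))) * (x - β') +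
          (S n m x - (S n m β' + a' * (x - β'))) * (β' - β) := by
      intro x; ring
    simp only [e]
    rw [intervalIntegral.integral_add (ii hβ'.1.le hβ'.2.le le_rfl hc')
      (ii hβ'.1.le hβ'.2.le le_rfl hc''), intervalIntegral.integral_mul_const, h'.mom1, h'.mom0]
    ring
  -- the moments of `f`
  have hcl : ContinuousOn (fun x => S n m x - (S n m β + a * (x - β))) (Icc (1 / 2 : ℝ) 1) :=
    hSc.sub hlc.continuousOn
  have hcg : ContinuousOn (fun x => S n m x - gg n m β' a' x) (Icc (1 / 2 : ℝ) 1) := hSc.sub hgc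
  have hF0 : ∫ x in β..1, (gg n m β' a' x - (S n m β + a * (x - β))) = 0 := by
    have e : ∀ x : ℝ, gg n m β' a' x - (S n m β + a * (x - β)) =
        (S n m x - (S n m β + a * (x - β))) - (S n m x - gg n m β' a' x) := by
      intro x; ring
    simp only [e]
    rw [intervalIntegral.integral_sub (ii hβ.1.le hβ.2.le le_rfl hcl)
      (ii hβ.1.le hβ.2.le le_rfl hcg), h.mom0, hm0, sub_zero]
  have hF1 : ∫ x in β..1, (gg n m β' a' x - (S n m β + a * (x - β))) * (x - β) = 0 := by
    have e : ∀ x : ℝ, (gg n m β' a' x - (S n m β + a * (x - β))) * (x - β) =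
        (S n m x - (S n m β + a * (x - β))) * (x - β) - (S n m x - gg n m β' a' x) * (x - β) := by
      intro x; ring
    simp only [e]
    have hcl' : ContinuousOn (fun x => (S n m x - (S n m β + a * (x - β))) * (x - β))
        (Icc (1 / 2 : ℝ) 1) := hcl.mul (by fun_prop)
    have hcg' : ContinuousOn (fun x => (S n m x - gg n m β' a' x) * (x - β))
        (Icc (1 / 2 : ℝ) 1) := hcg.mul (by fun_prop)
    rw [intervalIntegral.integral_sub (ii hβ.1.le hβ.2.le le_rfl hcl')
      (ii hβ.1.le hβ.2.le le_rfl hcg'), h.mom1, hm1, sub_zero]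
  have hzero := hR _ β hβ.2 hfc hconv hf0 hF0 hF1
  -- `S` is linear on `[β, β']`
  have hlin : ∀ x ∈ Icc β β', S n m x = S n m β + a * (x - β) := by
    intro x hx
    have h1 := hzero x ⟨hx.1, by linarith [hx.2, hβ'.2]⟩
    have h2 : gg n m β' a' x = S n m x := by unfold gg; rw [if_pos hx.2]
    rw [h2] at h1
    linarith
  have hS1 : ∀ x ∈ Ioo β β', S1 n m x = a := by
    intro x hx
    have h1 := hasDerivAt_S n m (x := x) (by linarith [hβ.1, hx.1]) (by linarith [hx.2, hβ'.2])
    have h2 : HasDerivAt (fun x : ℝ => S n m β + a * (x - β)) a x := by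
      have := (((hasDerivAt_id x).sub_const β).const_mul a).const_add (S n m β)
      simpa using this
    have h3 : HasDerivAt (S n m) a x := by
      apply h2.congr_of_eventuallyEq
      filter_upwards [Ioo_mem_nhds hx.1 hx.2] with z hz
      exact hlin z ⟨hz.1.le, hz.2.le⟩
    exact h1.unique h3
  have hS20 : ∀ x ∈ Ioo β β', S2 n m x = 0 := by
    intro x hx
    have h1 := hasDerivAt_S1 n m (x := x) (by linarith [hβ.1, hx.1]) (by linarith [hx.2, hβ'.2])
    have h3 : HasDerivAt (S1 n m) 0 x := by
      apply (hasDerivAt_const x a).congr_of_eventuallyEq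
      filter_upwards [Ioo_mem_nhds hx.1 hx.2] with z hz
      exact hS1 z hz
    exact h1.unique h3
  obtain ⟨c, hc, hβc⟩ := exists_peak_of_knot hn hm h'
  have hx : (2 * β + β') / 3 ∈ Ioo β β' := ⟨by linarith, by linarith⟩
  have hy : (β + 2 * β') / 3 ∈ Ioo β β' := ⟨by linarith, by linarith⟩
  have := hS2 n m hn hm c hc ((2 * β + β') / 3) ((β + 2 * β') / 3)
    (by linarith [hβ.1]) (by linarith) (by linarith) (hS20 _ hy).ge
  rw [hS20 _ hx] at this
  exact lt_irrefl _ this

theorem uniq : S_SHAPE2 → S_CONVG → S_REG → S_UNIQ := by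
  intro hS2 hCV hR n m hn hm β a β' a' h h'
  have hβ : β = β' := by
    rcases lt_trichotomy β β' with hlt | heq | hlt
    · exact (false_of_lt hS2 hCV hR hn hm h h' hlt).elim
    · exact heq
    · exact (false_of_lt hS2 hCV hR hn hm h' h hlt).elim
  refine ⟨hβ, ?_⟩
  subst hβ
  have hβ := h.mem
  have hSc : ContinuousOn (S n m) (Icc (1 / 2 : ℝ) 1) :=
    (continuousOn_S n m hm).mono (Icc_subset_Icc (by norm_num) le_rfl)
  have ii : ∀ {φ : ℝ → ℝ}, ContinuousOn φ (Icc (1 / 2 : ℝ) 1) →
      IntervalIntegrable φ volume β 1 := by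
    intro φ hφ
    apply ContinuousOn.intervalIntegrable
    rw [uIcc_of_le hβ.2.le]
    exact hφ.mono (Icc_subset_Icc hβ.1.le le_rfl)
  have hc : ∀ a : ℝ, ContinuousOn (fun x => S n m x - (S n m β + a * (x - β)))
      (Icc (1 / 2 : ℝ) 1) := fun a => hSc.sub (by fun_prop)
  have h1 : ∫ x in β..1, ((S n m x - (S n m β + a * (x - β))) -
      (S n m x - (S n m β + a' * (x - β)))) = 0 := by
    rw [intervalIntegral.integral_sub (ii (hc a)) (ii (hc a')), h.mom0, h'.mom0, sub_zero]
  have h2 : ∀ x : ℝ, (S n m x - (S n m β + a * (x - β))) -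
      (S n m x - (S n m β + a' * (x - β))) = (a' - a) * (x - β) := by
    intro x; ring
  simp only [h2] at h1
  rw [intervalIntegral.integral_const_mul] at h1
  have h3 : ∫ x in β..1, (x - β) = (1 - β) ^ 2 / 2 := by
    rw [intervalIntegral.integral_sub (continuous_id'.intervalIntegrable _ _)
      (continuous_const.intervalIntegrable _ _), integral_id,
      intervalIntegral.integral_const, smul_eq_mul]
    ring
  rw [h3] at h1
  have h4 : (1 - β) ^ 2 / 2 ≠ 0 := by
    have : 0 < 1 - β := by linarith [hβ.2]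
    positivity
  rcases mul_eq_zero.1 h1 with h5 | h5
  · linarith
  · exact absurd h5 h4

end Pool.Agent.T9h43.KU
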